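import Mathlib
import Pool.Agent.helper22.WC.Spec

/-! # Project wc (MP_baa4d7_al), row SUR (helper14) -/

set_option autoImplicit false

open Pool.Agent.helper58.DC Pool.Agent.DI Pool.Agent.DR

namespace Pool.Agent.WC

theorem SUR_count {T : Type} (S : Set T) (hS : S.Finite) (v : T → ℂ) (n N : ℕ) (hn : n ≤ N)
    (hv : ∀ η ∈ S, ∃ k : ℕ, 0 < k ∧ v η = k ∧ k ∣ n) (m : ℕ) :
    ∑ᶠ η ∈ S, ((n : ℂ) / v η) ^ (2 * m) =
      ∑ c ∈ Finset.range (N + 1), (Nat.card {η // η ∈ S ∧ (c : ℂ) * v η = n} : ℂ) *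
        (c : ℂ) ^ (2 * m) := by
  classical
  have h1 : ∀ η ∈ S, v η ≠ 0 ∧ ∃ c : ℕ, (c : ℂ) * v η = n ∧ c ≤ N := by
    intro η hη
    obtain ⟨k, hk, hvk, c, hc⟩ := hv η hη
    refine ⟨?_, c, ?_, ?_⟩
    · rw [hvk]
      exact_mod_cast hk.ne'
    · rw [hvk, hc]
      push_cast
      ring
    · have : c ≤ k * c := Nat.le_mul_of_pos_left c hk
      omega
  have h2 : ∀ η ∈ S, ∃ c : ℕ, (c : ℂ) * v η = n ∧ c ≤ N := fun η hη => (h1 η hη).2
  choose! cf hcf using h2
  rw [finsum_mem_eq_finite_toFinset_sum _ hS]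
  rw [← Finset.sum_fiberwise_of_maps_to (s := hS.toFinset) (t := Finset.range (N + 1)) (g := cf)
    (fun η hη => Finset.mem_range.mpr (Nat.lt_succ_of_le (hcf η (hS.mem_toFinset.mp hη)).2))]
  refine Finset.sum_congr rfl fun c _ => ?_
  have h3 : Nat.card {η // η ∈ S ∧ (c : ℂ) * v η = n} =
      (hS.toFinset.filter fun η => cf η = c).card := by
    refine Nat.subtype_card _ fun η => ?_
    rw [Finset.mem_filter, hS.mem_toFinset]
    constructor
    · rintro ⟨h, rfl⟩
      exact ⟨h, (hcf η h).1⟩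
    · rintro ⟨h, h'⟩
      refine ⟨h, ?_⟩
      have h4 : ((cf η : ℕ) : ℂ) = c := mul_right_cancel₀ (h1 η h).1 ((hcf η h).1.trans h'.symm)
      exact_mod_cast h4
  rw [h3, ← nsmul_eq_mul, ← Finset.sum_const]
  refine Finset.sum_congr rfl fun η hη => ?_
  obtain ⟨hη1, hη2⟩ := Finset.mem_filter.mp hη
  have hη3 := hS.mem_toFinset.mp hη1
  have h5 := (hcf η hη3).1
  rw [hη2] at h5
  rw [← h5, mul_div_assoc, div_self (h1 η hη3).1, mul_one]

theorem SUR (hSRL : SRL_stmt) (hSEP : SEP_stmt) (hIF : IF_stmt)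
    (hB2 : Pool.Agent.DI.B2_stmt) : SUR_stmt := by
  classical
  intro G E A _ _ _ _ _ X m a ha
  have : Fintype (Subgroup E) := Fintype.ofFinite _
  set N := Nat.card G with hN
  -- the count
  let K : Subgroup E → ℕ → ℕ := fun L c =>
    Nat.card {η : G → ℂ // η ∈ IrrOn (L.comap X.inc) ∧
      (c : ℂ) * η 1 = Nat.card (L.comap X.inc) ∧ ∀ e ∈ L, funMap (X.act e) η = η}
  have hcard : ∀ L : Subgroup E, Nat.card (L.comap X.inc) ≤ N := fun L =>
    Nat.card_le_card_of_injective (fun x : L.comap X.inc => (x : G)) Subtype.val_injective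
  have hL : ∀ L : Subgroup E, L ⊔ X.inc.range = ⊤ → (homL X a L : ℤ) =
      (Nat.card (L.comap X.inc) : ℤ) * ∑ c ∈ Finset.range (N + 1), (K L c : ℤ) * (c : ℤ) ^ (2 * m) := by
    intro L hLt
    have h1 := (hSRL G E A X m a ha L).2 hLt
    have h2 := SUR_count {η : G → ℂ | η ∈ IrrOn (L.comap X.inc) ∧ ∀ e ∈ L, funMap (X.act e) η = η}
      ((hB2 G (L.comap X.inc)).1.subset fun η hη => hη.1) (fun η => η 1)
      (Nat.card (L.comap X.inc)) N (hcard L) (fun η hη => ((hB2 G (L.comap X.inc)).2 η hη.1).1) m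
    have h3 : ∀ c : ℕ, Nat.card {η : G → ℂ // η ∈ {η : G → ℂ | η ∈ IrrOn (L.comap X.inc) ∧
        ∀ e ∈ L, funMap (X.act e) η = η} ∧ (c : ℂ) * η 1 = Nat.card (L.comap X.inc)} = K L c := by
      intro c
      refine Nat.card_congr (Equiv.subtypeEquivRight fun η => ?_)
      constructor
      · rintro ⟨⟨h, h'⟩, h''⟩
        exact ⟨h, h'', h'⟩
      · rintro ⟨h, h'', h'⟩
        exact ⟨⟨h, h'⟩, h''⟩
    simp only [h3] at h2
    rw [h2] at h1
    have h4 : (((homL X a L : ℕ) : ℤ) : ℂ) = (((Nat.card (L.comap X.inc) : ℤ) *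
        ∑ c ∈ Finset.range (N + 1), (K L c : ℤ) * (c : ℤ) ^ (2 * m) : ℤ) : ℂ) := by
      push_cast
      exact h1
    exact_mod_cast h4
  have hL0 : ∀ L : Subgroup E, L ⊔ X.inc.range ≠ ⊤ → homL X a L = 0 := fun L h =>
    (hSRL G E A X m a ha L).1 h
  -- the coefficients
  have hmc : ∀ c : ℕ, mc X c = ∑ L : Subgroup E, if L ⊔ X.inc.range = ⊤ then
      mob L * ((Nat.card (L.comap X.inc) : ℤ) * (K L c : ℤ)) else 0 := by
    intro c
    unfold mc
    rw [finsum_eq_sum_of_fintype]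
    refine Finset.sum_congr rfl fun L _ => ?_
    rw [finsum_eq_if]
    by_cases h : L ⊔ X.inc.range = ⊤
    · rw [if_pos h, if_pos (show L ∈ {L : Subgroup E | L ⊔ X.inc.range = ⊤} from h)]
    · rw [if_neg h, if_neg (show L ∉ {L : Subgroup E | L ⊔ X.inc.range = ⊤} from h)]
  have hmc0 : ∀ c : ℕ, N < c → mc X c = 0 := by
    intro c hc
    rw [hmc c]
    refine Finset.sum_eq_zero fun L _ => ?_
    split_ifs with h
    · have : K L c = 0 := by
        refine Nat.card_eq_zero.mpr (Or.inl ⟨?_⟩)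
        rintro ⟨η, h1, h2, -⟩
        obtain ⟨k, hk, hk1, hk2⟩ := ((hB2 G (L.comap X.inc)).2 η h1).1
        rw [hk1] at h2
        have h3 : c * k = Nat.card (L.comap X.inc) := by exact_mod_cast h2
        have h4 := hcard L
        have h5 : c ≤ c * k := Nat.le_mul_of_pos_right c hk
        omega
      rw [this]
      simp
    · rfl
  rw [finsum_eq_sum_of_support_subset (s := Finset.range (N + 1)) _ ?_]
  · rw [hSEP G E A X (m + 1) a, finsum_eq_sum_of_fintype]
    simp only [hmc, Finset.sum_mul]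
    rw [Finset.sum_comm]
    refine Finset.sum_congr rfl fun L _ => ?_
    by_cases h : L ⊔ X.inc.range = ⊤
    · rw [hL L h, Finset.mul_sum, Finset.mul_sum]
      refine Finset.sum_congr rfl fun c _ => ?_
      rw [if_pos h]
      ring
    · rw [hL0 L h]
      simp [h]
  · intro c hc
    rw [Function.mem_support] at hc
    rw [Finset.mem_coe, Finset.mem_range]
    by_contra h
    exact hc (by rw [hmc0 c (by omega), zero_mul])

end Pool.Agent.WC
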